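import Mathlib
import Pool.Agent.TH350.SC.Defs
import Pool.Agent.TH350.SC.Main
import Pool.Agent.Run7.h97.GO.Asym

/-!
# Schneider's conjecture over `ℚ`: about half of the twists in every Galois orbit

`GoodClass p i` says that for every `r ≥ 2`, `r ≡ 1 - 2i (mod p - 1)`, the `p`-adic zeta value
`ζ_p(r) = L_p(r, ω^{1-r}) = 1/(r-1) · lim_N p^{-N} ∑_{0 < a < p^N, p ∤ a} a^{1-r}` exists and is a `p`-adic unit; then
Schneider's conjecture holds for `(ℚ, p, r)` for all these `r` (background: see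
`MP_59f3ad_nt.AlmostAllPrimesOverQ`).

The open twists over `ℚ` are the odd `r`. The group of units modulo `p - 1` acts on the classes of the odd `r`
modulo `p - 1` (this is the action of the Galois group on the characters `ω^r`); the orbits are given by the value
`m = gcd(r, p - 1) = gcd(2i - 1, p - 1)`, and there are `φ((p - 1) / m)` classes in the orbit of `m`. We show that for
every prime `p ≥ 5` about half of every orbit is good. It follows by the congruence between `ζ_p(r)` and `B_{2i}`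
(`Pool/Agent/TH350/SC/Main.lean`) from `Pool/Agent/Results/MP_a3a416_nt/GaloisOrbits.lean`.
-/

set_option autoImplicit false

namespace Pool.Agent.Results.MP_59f3ad_nt.HalfOfEveryOrbitOfTwists

open Pool.Agent.TH350.SC Finset

open Classical in
/-- the `i`, `1 ≤ i ≤ (p - 3) / 2`, `gcd(2i - 1, p - 1) = m`, for which the class `1 - 2i` of twists is not good -/
noncomputable def bad (p m : ℕ) : Finset ℕ :=
  (Icc 1 ((p - 3) / 2)).filter (fun i => Nat.gcd (2 * i - 1) (p - 1) = m ∧ ¬ GoodClass p i)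

lemma bad_le {p m : ℕ} (hp5 : 5 ≤ p) :
    (bad p m).card ≤ (Pool.Agent.Run7.h97.GO.irr p m).card := by
  classical
  apply card_le_card
  intro i hi
  unfold bad at hi
  unfold Pool.Agent.Run7.h97.GO.irr
  rw [mem_filter, mem_Icc] at hi ⊢
  refine ⟨hi.1, hi.2.1, ?_⟩
  by_contra hcon
  refine hi.2.2 (fun r hr hrm _ => ?_)
  exact zetaUnit hi.1.1 (by omega) hr hrm hcon

/-- (1) For every prime `p ≥ 5` and every `m`, the number `r` of the `i`, `1 ≤ i ≤ (p - 3) / 2`, with
`gcd(2i - 1, p - 1) = m` for which the class of the twists `1 - 2i (mod p - 1)` is not good satisfies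
`p^r ≤ 2 (√p (log p + 2) / (2π))^{φ((p-1)/m)}`.
(2) For every `ε > 0` and all large `p`, uniformly in `m`, `r ≤ (1/2 + ε) φ((p - 1) / m)`.
(3) For fixed `d` and all large `p`, `p ≡ 1 mod d`, `2 r ≤ φ(d)` for `m = (p - 1) / d`. -/
theorem result :
    (∀ p : ℕ, p.Prime → 5 ≤ p → ∀ m : ℕ,
      (p : ℝ) ^ (bad p m).card ≤
        2 * (√p * (Real.log p + 2) / (2 * Real.pi)) ^ ((p - 1) / m).totient) ∧
    (∀ ε : ℝ, 0 < ε → ∃ P : ℕ, ∀ p : ℕ, p.Prime → P ≤ p → ∀ m : ℕ,
      ((bad p m).card : ℝ) ≤ (1 / 2 + ε) * ((p - 1) / m).totient) ∧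
    (∀ d : ℕ, ∃ P : ℕ, ∀ p : ℕ, p.Prime → P ≤ p → ∀ m : ℕ, p - 1 = m * d →
      2 * (bad p m).card ≤ d.totient) := by
  refine ⟨fun p hp hp5 m => ?_, fun ε hε => ?_, fun d => ?_⟩
  · refine le_trans ?_ (Pool.Agent.Run7.h97.GO.main p hp hp5 m)
    exact pow_le_pow_right₀ (by exact_mod_cast hp.one_le) (bad_le hp5)
  · obtain ⟨P, hP⟩ := Pool.Agent.Run7.h97.GO.eps ε hε
    refine ⟨max P 5, fun p hp hpP m => ?_⟩
    refine le_trans ?_ (hP p hp ((le_max_left _ _).trans hpP) m)
    exact_mod_cast bad_le ((le_max_right _ _).trans hpP)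
  · obtain ⟨P, hP⟩ := Pool.Agent.Run7.h97.GO.fixed d
    refine ⟨max P 5, fun p hp hpP m hm => ?_⟩
    refine le_trans ?_ (hP p hp ((le_max_left _ _).trans hpP) m hm)
    exact Nat.mul_le_mul_left 2 (bad_le ((le_max_right _ _).trans hpP))

end Pool.Agent.Results.MP_59f3ad_nt.HalfOfEveryOrbitOfTwists
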