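import Mathlib
import Pool.Agent.Run7.K3.Count
import Pool.Agent.Run7.K3.PadicL

/-!
# Schneider's conjecture for `ℚ(√-3)`: a positive proportion of all primes `p`

Let `χ` be the quadratic character modulo `3`.  For at least one in two hundred primes `p`, for all `r ≥ 2`
with `r ≡ 2 (mod p - 1)` (for example for `r = 2`), the value `L_p(r, χ ω^{1-r})` of the Kubota–Leopoldt
`p`-adic `L`-function is a `p`-adic unit.

Background (known, not formalised): for even `r ≥ 2`, Schneider's conjecture `Ш¹(O_{L,S}, ℤ_p(r)) = 0`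
for `L = ℚ(√-3)` holds if and only if `L_p(r, χ ω^{1-r}) ≠ 0` (the part of the trivial character
vanishes, because `H¹(ℤ[1/p], ℚ_p(r)) = 0`).

The proof is in `Pool/Agent/Run7/K3`.  The value is a unit if and only if `p` does not divide
`∑_{k ≤ p/3} 1/k²` (`PadicL.lean`).  If `p` divides this sum, the coefficients of the five series
`∑ H_k^{(2)}/(6k+r) u^k`, `r = 1, ..., 5`, where `H_k^{(2)} = ∑_{j ≤ k} 1/j²`, have `p`-adically smaller
denominators than expected.  If this happens for too many `p`, the determinants formed by the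
coefficients of `u^j f(u)`, `f` one of these series or `1`, `∑ u^k/k`, `∑ u^k/k²`, are `p`-adically too
small for the product formula: they are nonzero by a zero estimate modulo a large prime, their
archimedean size is bounded by means of rational functions with prescribed zeros and contour integrals.
-/

set_option autoImplicit false

namespace Pool.Agent.Results.MP_59f3ad_nt.OneInTwoHundredEisenstein

open Finset Filter Topology

/-- The quadratic character modulo `3`. -/
def chi (m : ℕ) : ℤ := if m % 3 = 1 then 1 else if m % 3 = 2 then -1 else 0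

/-- The approximants `1/(r-1) · 1/(3 p^k) · ∑_{0 ≤ m < 3 p^k, p ∤ m} χ(m) m^{1-r}` of
`L_p(r, χ ω^{1-r})`. -/
noncomputable def lApprox (p : ℕ) [Fact p.Prime] (r k : ℕ) : ℚ_[p] :=
  (∑ m ∈ (range (3 * p ^ k)).filter (fun m => ¬ p ∣ m),
    (chi m : ℚ_[p]) * ((m : ℚ_[p]) ^ (r - 1))⁻¹) / (((r : ℚ_[p]) - 1) * (3 * (p : ℚ_[p]) ^ k))

/-- `p` is prime, and for all `r ≥ 2` with `r ≡ 2 (mod p - 1)` the value `L_p(r, χ ω^{1-r})` exists (as
the limit of the approximants) and is a `p`-adic unit. -/
def UnitClass (p : ℕ) : Prop :=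
  ∃ _ : Fact p.Prime, ∀ r : ℕ, 2 ≤ r → p - 1 ∣ r - 2 →
    ∃ z : ℚ_[p], ‖z‖ = 1 ∧ Tendsto (fun k => lApprox p r k) atTop (𝓝 z)

open Classical in
/-- For all large `x` at least one in two hundred primes `p ≤ x` has the property that for all `r ≥ 2`
with `r ≡ 2 (mod p - 1)` the value `L_p(r, χ ω^{1-r})` is a `p`-adic unit, `χ` the quadratic character
modulo `3`. -/
theorem result : ∃ x₀ : ℕ, ∀ x : ℕ, x₀ ≤ x →
    Nat.primeCounting x ≤ 200 * ((range (x + 1)).filter (fun p => UnitClass p)).card := by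
  obtain ⟨x₀, h⟩ := Run7.K3.count_good
  refine ⟨x₀, fun x hx => h x hx _ ?_⟩
  intro p hpx hp h5 hg
  rw [mem_filter, mem_range]
  refine ⟨by omega, ⟨hp⟩, ?_⟩
  intro r hr hr2
  have : Fact p.Prime := ⟨hp⟩
  obtain ⟨z, hz1, _, hz2⟩ := Run7.K3.PL.padicL (p := p) h5 r hr hr2
  exact ⟨z, hz2.mpr hg, hz1⟩

end Pool.Agent.Results.MP_59f3ad_nt.OneInTwoHundredEisenstein
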