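import Mathlib
import Pool.Agent.Run7.h707.TH.Lw

/-!
# Schneider's conjecture for `p = 3` and all twists: from any field `F₀ = K(∛b_1, …, ∛b_s)` to the fields
`F₀(∛a_1, …, ∛a_m)` for an exact positive proportion of ALL the tuples `a`

`K = ℚ(ω)`, `ω² + ω + 1 = 0`, with ring of integers `ℤ[ω]`.  An element `δ` of `ℤ[ω]` is *good* if
`δ = ω^i π_1^{e_1} ... π_n^{e_n} c³` with different primes `π_k = 1` modulo `3`, `e_k ∈ {1, 2}`, `c = 1` modulo
`3`, if `π_1^{e_1} ... π_n^{e_n}` is not `1` modulo `9` in the case `i = 0`, and if the Laplacian of the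
cubic residue symbols has the smallest possible kernel: the vectors `v ∈ 𝔽_3^n` such that for all `j` the
element `ω^{-i v_j} ∏ π_k^{e_k (v_k - v_j)}` is a cube modulo `π_j` are constant, and zero if `i ≠ 0`.

**Theorem 1.**  Let `b_1, …, b_s` be elements of `ℤ[ω]` that are independent modulo cubes (`s ≥ 0`) and
`F₀ = K(∛b_1, …, ∛b_s)`.  Let `a_1, …, a_m` be elements such that all the `b^μ a^ν`, `ν ≠ 0`, are good, and
`L = F₀(∛a_1, …, ∛a_m)`.  Then `[F₀ : K] = 3^s`, `[L : K] = 3^(s + m)`, and for ALL the fields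
`F₀ ⊆ F ⊆ L`, all `r ≠ 0` and all `S`

`rank Ш¹(O_{F,S}, ℤ_3(r)) = rank Ш¹(O_{F₀,S}, ℤ_3(r))`, and `Ш¹(O_{F,S}, ℤ_3(r)) = 0` if and only if
`Ш¹(O_{F₀,S}, ℤ_3(r)) = 0`.

So Schneider's conjecture for `(F, 3, r)` is equivalent to the one for `(F₀, 3, r)`; nothing is supposed
about `F₀`.  If the `b^μ`, `μ ≠ 0`, are good too (no condition for `F₀ = K`), then
`Ш¹(O_{F,S}, ℤ_3(r)) = 0` for all the fields `K ⊆ F ⊆ L`, all `r ≠ 0` and all `S`.

**Theorem 2.**  Suppose that the `b_i` are cube-free and congruent to third roots of unity modulo `3` (every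
element prime to `3` is such an element times a cube).  Let `a` run through ALL the `m`-tuples of such
elements, ordered by the maximum of the norms.  The tuple is in the family if no `b^μ a^ν`, `ν ≠ 0`, is
exceptional (a unit times a cube, or `1` modulo `3` with a norm that is `1` modulo `9`).

* The family has a density `κ ∈ 9^{-m} ℤ` among ALL the tuples, given by a finite count of classes and positive
  as soon as the family is not empty; `κ = 8/9` for `s = 0, m = 1` and `κ = 16/27` for `s = 0, m = 2`.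
* The tuples of the family such that all the `b^μ a^ν`, `ν ≠ 0`, are good have, among ALL the tuples, exactly
  the density `κ c₉^N`, `N = 3^s (3^m - 1) / 2`, `c₉ = ∏_{i ≥ 0} (1 - 3^{-(2 i + 1)}) > 0.639`.

So for exactly the proportion `8/9 c₉ > 0.568` at least of ALL the cubic extensions `L = K(∛a)` and
`16/27 c₉^4 > 0.0988` of all the `L = K(∛a, ∛a')` Schneider's conjecture is true for `p = 3`, for all the twists
and all the fields between `K` and `L`; and for every fixed `F₀` as above there is an exact positive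
proportion of `L = F₀(∛a)` (of `L = F₀(∛a, ∛a')`) with the same ranks for all the twists.

The earlier file `CubicFieldsAllTwists` treats `K(∛D)` for the squarefree `D = 1` modulo `3` with norm
different from `1` modulo `9`, and cyclic extensions of degree `3^k`; the definitions of the groups are
copied from there.  New: the units `ω^i`, all cube-free elements, the elementary abelian extensions, the
arbitrary base field and the exact densities.  For `r = 1` (Leopoldt's conjecture) the groups are zero by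
a theorem of Brumer, since `L / K` is abelian.

Proof: let `c` be a cocycle over `L`.  The components of the induced cocycle for the characters
`χ = χ_{b^μ a^ν}` of `Gal(L / K)` are cocycles of the absolute Galois group of `K` with values in
`ℚ_3(ζ_3)(r) ⊗ χ^{-1}`.  The residue of such a cocycle is a cubic character of `K` with strong local conditions;
by the Kummer theory and the explicit computation of the local conditions in terms of cubic residue
symbols it is trivial if `b^μ a^ν` is good.  So only the components with `ν = 0` remain; they are the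
corestriction to `F₀` (`Pool/Agent/Run7/h707/TH/{Ker, Tr, Van, Cor, Rk, Gal, Crt}.lean`, adapted from and
built on `Pool/Agent/N848/Sch` and `Pool/Agent/Y715/T`).  The density is the law of the kernels of my earlier
files (`TH/Lw.lean`, `Pool/Agent/Run7/h707/{TC, TD, TE, TF}`), which rests on the work of the seats named in
the headers of the imported files.
-/

set_option autoImplicit false

namespace Pool.Agent.Results.MP_59f3ad_nt.RadicalFieldsAnyBase

/-! ### The fields -/

/-- An algebraic closure of `ℚ`. -/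
abbrev QBar : Type := AlgebraicClosure ℚ

/-- The ring of integers `ℤ[ω]`, `ω² = -1 - ω`, of `ℚ(ω)`. -/
abbrev OK : Type := QuadraticAlgebra ℤ (-1) (-1)

/-- The element `ω`. -/
def om : OK := ⟨0, 1⟩

/-- The norm `a² - a b + b²` of `a + b ω`. -/
def nr (z : OK) : ℤ := z.re ^ 2 - z.re * z.im + z.im ^ 2

/-- The element `a + b w` for `z = a + b ω`. -/
noncomputable def emb (w : QBar) (z : OK) : QBar := z.re + z.im * w

/-- The field `K = ℚ(w)`. It is `ℚ(ω)` if `w² + w + 1 = 0`. -/
noncomputable abbrev K (w : QBar) : IntermediateField ℚ QBar := IntermediateField.adjoin ℚ {w}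

/-- The absolute Galois group of `K`. -/
def Gal (w : QBar) : Type := QBar ≃ₐ[K w] QBar

/-- Its group structure (the one of Mathlib). -/
noncomputable instance instGroupGal (w : QBar) : Group (Gal w) :=
  (inferInstance : Group (QBar ≃ₐ[K w] QBar))

/-- Its topology (the Krull topology of Mathlib). -/
noncomputable instance instTopGal (w : QBar) : TopologicalSpace (Gal w) :=
  (inferInstance : TopologicalSpace (QBar ≃ₐ[K w] QBar))

/-- The element `σ` as an automorphism of the field `ℚ̄`. -/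
noncomputable def aut {w : QBar} (σ : Gal w) : QBar ≃+* QBar := AlgEquiv.toRingEquiv σ

/-- The absolute Galois group of the field `F`, a closed subgroup of the one of `K`. -/
noncomputable def grp {w : QBar} (F : IntermediateField (K w) QBar) : Subgroup (Gal w) :=
  F.fixingSubgroup

/-- The degree of the field `F` over `K`. -/
noncomputable def degree {w : QBar} (F : IntermediateField (K w) QBar) : ℕ :=
  Module.finrank (K w) F

/-- The field generated over `K` by the elements `β i`. -/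
noncomputable def base {s : ℕ} (w : QBar) (β : Fin s → QBar) : IntermediateField (K w) QBar :=
  IntermediateField.adjoin (K w) (Set.range β)

/-- The field generated over `K` by the elements `β i` and `α k`. -/
noncomputable def top {s m : ℕ} (w : QBar) (β : Fin s → QBar) (α : Fin m → QBar) :
    IntermediateField (K w) QBar :=
  IntermediateField.adjoin (K w) (Set.range β ∪ Set.range α)

/-! ### The Tate twists and the Tate–Shafarevich groups

An algebraic extension `L` of `K` in `ℚ̄` is given by its absolute Galois group `H`, a closed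
subgroup of the absolute Galois group of `K`. -/

/-- The `3`-adic cyclotomic character. -/
noncomputable def cyc {w : QBar} (σ : Gal w) : ℤ_[3]ˣ := cyclotomicCharacter QBar 3 (aut σ)

/-- The `3`-adic integer by which `σ` acts on `ℤ_3(r)`, that is, the `r`-th power of the value of
the cyclotomic character. -/
noncomputable def tate {w : QBar} (r : ℤ) (σ : Gal w) : ℤ_[3] :=
  (((cyc σ) ^ r : ℤ_[3]ˣ) : ℤ_[3])

/-- `τ` is an extension of `σ` to the completion, with respect to the embedding `ι` of `ℚ̄`. -/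
def Ext {w : QBar} {p : ℕ} [Fact p.Prime] (ι : QBar →ₐ[ℚ] PadicAlgCl p)
    (τ : PadicAlgCl p ≃ₐ[ℚ_[p]] PadicAlgCl p) (σ : Gal w) : Prop := ∀ x, τ (ι x) = ι (aut σ x)

/-- The decomposition group of the place of `ℚ̄` given by the embedding `ι`. -/
def Dec {w : QBar} {p : ℕ} [Fact p.Prime] (ι : QBar →ₐ[ℚ] PadicAlgCl p) (σ : Gal w) : Prop :=
  ∃ τ : PadicAlgCl p ≃ₐ[ℚ_[p]] PadicAlgCl p, Ext ι τ σ

/-- Its inertia group: the automorphisms which are trivial on the residue field. -/
def Inr {w : QBar} {p : ℕ} [Fact p.Prime] (ι : QBar →ₐ[ℚ] PadicAlgCl p) (σ : Gal w) : Prop :=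
  ∃ τ : PadicAlgCl p ≃ₐ[ℚ_[p]] PadicAlgCl p, Ext ι τ σ ∧
    ∀ z : PadicAlgCl p, ‖z‖ ≤ 1 → ‖τ z - z‖ < 1

section

variable {w : QBar} {H : Subgroup (Gal w)}

/-- The continuous cocycles of the absolute Galois group `H` of `L` with values in `ℤ_3(r)`. -/
structure IsCocycle (r : ℤ) (c : ↥H → ℤ_[3]) : Prop where
  cont : Continuous c
  mul : ∀ σ τ, c (σ * τ) = c σ + tate r (σ : Gal w) * c τ

/-- The restriction of `c` to the set of the elements with the property `S` is a coboundary with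
values in `ℤ_3(r)`. -/
def TrivialOn (r : ℤ) (S : Gal w → Prop) (c : ↥H → ℤ_[3]) : Prop :=
  ∃ z : ℤ_[3], ∀ σ : ↥H, S (σ : Gal w) → c σ = (tate r (σ : Gal w) - 1) * z

/-- The cocycles of the elements of the groups `Ш¹(O_{L,S}, ℤ_3(r))`: they vanish on the inertia
groups of the places prime to `3` (on which the cyclotomic character is trivial), because their
classes are unramified outside `S` and locally trivial at the places of `S`, and their restrictions
to the decomposition groups of the places above `3` are coboundaries. -/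
structure InSha (r : ℤ) (c : ↥H → ℤ_[3]) : Prop where
  away : ∀ (p : ℕ) [Fact p.Prime] (ι : QBar →ₐ[ℚ] PadicAlgCl p), p ≠ 3 → ∀ σ : ↥H,
    Inr ι (σ : Gal w) → c σ = 0
  three : ∀ ι : QBar →ₐ[ℚ] PadicAlgCl 3, TrivialOn r (Dec ι) c

end

/-- `Ш¹(O_{L,S}, ℤ_3(r)) = 0` for all `S`. -/
def ShaZero {w : QBar} (H : Subgroup (Gal w)) (r : ℤ) : Prop :=
  ∀ c : ↥H → ℤ_[3], IsCocycle r c → InSha r c → TrivialOn r (fun _ => True) c

/-- The rank of the `ℤ_3`-modules `Ш¹(O_{L,S}, ℤ_3(r))` is at most `n`: any `n + 1` elements are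
linearly dependent. -/
def RankLE {w : QBar} (H : Subgroup (Gal w)) (r : ℤ) (n : ℕ) : Prop :=
  ∀ c : Fin (n + 1) → ↥H → ℤ_[3], (∀ i, IsCocycle r (c i)) → (∀ i, InSha r (c i)) →
    ∃ x : Fin (n + 1) → ℤ_[3], (∃ i, x i ≠ 0) ∧
      TrivialOn r (fun _ => True) fun σ => ∑ i, x i * c i σ

/-! ### The elements -/

/-- `b^ν = ∏ b i ^ ν i`, the exponents in `{0, 1, 2}`. -/
def power {n : ℕ} (b : Fin n → OK) (ν : Fin n → ZMod 3) : OK := ∏ i, b i ^ (ν i).val

/-- The elements `b i` are independent modulo cubes. -/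
def Independent {s : ℕ} (b : Fin s → OK) : Prop :=
  ∀ μ : Fin s → ZMod 3, μ ≠ 0 → ∀ y : OK, y ^ 3 ≠ power b μ

/-- `x` is a cube modulo `q`. -/
def IsCubeMod (q x : OK) : Prop := ∃ y : OK, q ∣ x - y ^ 3

/-- `δ = ω^i ∏ π_k^{e_k} c³` with different primes `π_k = 1` modulo `3`, exponents `1` or `2` and `c = 1`
modulo `3`. -/
structure IsFac {J : Type} [Fintype J] (i : ZMod 3) (π : J → OK) (e : J → ZMod 3) (c δ : OK) :
    Prop where
  prime : ∀ k, Prime (π k)
  one : ∀ k, (3 : OK) ∣ π k - 1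
  inj : Function.Injective π
  exp : ∀ k, e k ≠ 0
  cube : (3 : OK) ∣ c - 1
  prod : δ = om ^ i.val * (∏ k, π k ^ (e k).val) * c ^ 3

/-- The kernel of the Laplacian of the cubic residue symbols is as small as possible: the vectors `v` such
that for all `j` the element `ω^{-i v_j} ∏ π_k^{e_k (v_k - v_j)}` is a cube modulo `π_j` are constant, and
zero if `i ≠ 0`. -/
def SmallKernel {J : Type} [Fintype J] (i : ZMod 3) (π : J → OK) (e : J → ZMod 3) : Prop :=
  ∀ v : J → ZMod 3, (∀ j, IsCubeMod (π j) (om ^ (-(i * v j)).val *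
    ∏ k, π k ^ (e k * (v k - v j)).val)) → (∀ j k, v j = v k) ∧ (i ≠ 0 → ∀ j, v j = 0)

/-- `δ` is good: it has such a factorization with a small kernel, and if `i = 0`, the product of the
`π_k^{e_k}` is not `1` modulo `9`. -/
def Good (δ : OK) : Prop :=
  ∃ (J : Type) (_ : Fintype J) (i : ZMod 3) (π : J → OK) (e : J → ZMod 3) (c : OK),
    IsFac i π e c δ ∧ (i = 0 → ¬ (9 : OK) ∣ (∏ k, π k ^ (e k).val) - 1) ∧ SmallKernel i π e

/-- All the `b^μ a^ν` with `ν ≠ 0` are good. -/
def NewGood {s m : ℕ} (b : Fin s → OK) (a : Fin m → OK) : Prop :=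
  ∀ (μ : Fin s → ZMod 3) (ν : Fin m → ZMod 3), ν ≠ 0 → Good (power b μ * power a ν)

/-- All the `b^μ` with `μ ≠ 0` are good. -/
def BaseGood {s : ℕ} (b : Fin s → OK) : Prop := ∀ μ : Fin s → ZMod 3, μ ≠ 0 → Good (power b μ)

/-- `a` is cube-free and congruent to a third root of unity modulo `3`. -/
def Admissible (a : OK) : Prop :=
  (∀ x : OK, x ^ 3 ∣ a → IsUnit x) ∧ ∃ ω : OK, ω ^ 3 = 1 ∧ (3 : OK) ∣ a - ω

/-- `δ` is `1` modulo `3` and its norm is `1` modulo `9`. -/
def IsOne (δ : OK) : Prop := (3 : OK) ∣ δ - 1 ∧ (9 : ℤ) ∣ nr δ - 1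

/-- `δ` is a unit times a cube, or `1` modulo `3` with a norm that is `1` modulo `9`. -/
def Exceptional (δ : OK) : Prop := (∃ u x : OK, IsUnit u ∧ δ = u * x ^ 3) ∨ IsOne δ

/-- For `ν ≠ 0` no `b^μ a^ν` is exceptional. -/
def InFamily {s m : ℕ} (b : Fin s → OK) (a : Fin m → OK) : Prop :=
  ∀ (μ : Fin s → ZMod 3) (ν : Fin m → ZMod 3), ν ≠ 0 → ¬ Exceptional (power b μ * power a ν)

/-- Nine representatives of the classes: `ω (1 + 3 n)`, `ω³ = 1`, `n = 0, 1, 2`. -/
def nine : Set OK := {x | ∃ (ω : OK) (n : ℕ), ω ^ 3 = 1 ∧ n < 3 ∧ x = ω * (1 + 3 * n)}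

/-- The density of the family: the proportion of the tuples of representatives such that for `ν ≠ 0` no
`b^μ a^ν` is `1` modulo `3` with a norm that is `1` modulo `9`. -/
noncomputable def kappa {s : ℕ} (b : Fin s → OK) (m : ℕ) : ℝ :=
  ({u : Fin m → OK | (∀ k, u k ∈ nine) ∧ ∀ (μ : Fin s → ZMod 3) (ν : Fin m → ZMod 3), ν ≠ 0 →
    ¬ IsOne (power b μ * power u ν)}.ncard : ℝ) / 9 ^ m

/-- The number of the admissible tuples `a` of norm at most `X` with the property `P`. -/
noncomputable def number {m : ℕ} (X : ℕ) (P : (Fin m → OK) → Prop) : ℝ :=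
  ({a : Fin m → OK | (∀ k, nr (a k) ≤ X ∧ Admissible (a k)) ∧ P a}.ncard : ℝ)

/-- The property `P` has the density `d` among all the admissible tuples. -/
def HasDensity {m : ℕ} (P : (Fin m → OK) → Prop) (d : ℝ) : Prop :=
  Filter.Tendsto (fun X : ℕ => number X P / number X (fun _ : Fin m → OK => True)) Filter.atTop
    (nhds d)

/-! ### The theorems -/

/-- For `F₀ = K(∛b_1, …, ∛b_s)` and `L = F₀(∛a_1, …, ∛a_m)`: the degrees over `K` are `3^s` and `3^(s + m)`, and
for all the fields `F` between `F₀` and `L` and all `r ≠ 0` the groups `Ш¹(O_{F,S}, ℤ_3(r))` and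
`Ш¹(O_{F₀,S}, ℤ_3(r))` have the same rank, and one is zero if and only if the other one is. -/
def Stable {s m : ℕ} (b : Fin s → OK) (a : Fin m → OK) : Prop :=
  ∀ w : QBar, w ^ 2 + w + 1 = 0 → ∀ (β : Fin s → QBar) (α : Fin m → QBar),
    (∀ i, β i ^ 3 = emb w (b i)) → (∀ k, α k ^ 3 = emb w (a k)) →
    degree (base w β) = 3 ^ s ∧ degree (top w β α) = 3 ^ (s + m) ∧
    ∀ F : IntermediateField (K w) QBar, base w β ≤ F → F ≤ top w β α → ∀ r : ℤ, r ≠ 0 →
      (∀ n : ℕ, RankLE (grp F) r n ↔ RankLE (grp (base w β)) r n) ∧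
      (ShaZero (grp F) r ↔ ShaZero (grp (base w β)) r)

/-- `Ш¹(O_{F,S}, ℤ_3(r)) = 0` for all the fields `F` between `K` and `L = K(∛b_1, …, ∛b_s, ∛a_1, …, ∛a_m)`, all
`r ≠ 0` and all `S`. -/
def Vanishing {s m : ℕ} (b : Fin s → OK) (a : Fin m → OK) : Prop :=
  ∀ w : QBar, w ^ 2 + w + 1 = 0 → ∀ (β : Fin s → QBar) (α : Fin m → QBar),
    (∀ i, β i ^ 3 = emb w (b i)) → (∀ k, α k ^ 3 = emb w (a k)) →
    ∀ F : IntermediateField (K w) QBar, F ≤ top w β α → ∀ r : ℤ, r ≠ 0 → ShaZero (grp F) r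

section proof

open Pool.Agent.Y715.T.Gi (ev ev_apply Kc)
open Run7.h707.TH

lemma emb_eq {w : QBar} (hw : w ^ 2 + w + 1 = 0) (z : OK) : emb w z = ev w hw z := by
  unfold emb
  rw [ev_apply]

section eqv

variable {w : QBar} {H : Subgroup (Gal w)} {r : ℤ}

lemma cy_iff (c : ↥H → ℤ_[3]) : IsCocycle r c ↔ Cy H r c :=
  ⟨fun h => ⟨h.cont, h.mul⟩, fun h => ⟨h.cont, h.mul⟩⟩

lemma sh_iff (c : ↥H → ℤ_[3]) : InSha r c ↔ Sh H r c := by
  constructor
  · intro h
    refine ⟨fun p _ ι hp τ σ hcmp hin => h.away p ι hp σ ⟨τ, hcmp, hin⟩, fun ι => ?_⟩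
    obtain ⟨y, hy⟩ := h.three ι
    exact ⟨y, fun τ σ hcmp => hy σ ⟨τ, hcmp⟩⟩
  · intro h
    refine ⟨?_, fun ι => ?_⟩
    · rintro p _ ι hp σ ⟨τ, hcmp, hin⟩
      exact h.away p ι hp τ σ hcmp hin
    · obtain ⟨y, hy⟩ := h.three ι
      refine ⟨y, ?_⟩
      rintro σ ⟨τ, hcmp⟩
      exact hy τ σ hcmp

lemma cb_iff (c : ↥H → ℤ_[3]) : TrivialOn r (fun _ => True) c ↔ Cb H r c := by
  constructor
  · rintro ⟨y, hy⟩
    exact ⟨y, fun σ => hy σ trivial⟩
  · rintro ⟨y, hy⟩
    exact ⟨y, fun σ _ => hy σ⟩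

lemma sz_iff' : ShaZero H r ↔ SZ H r := by
  unfold ShaZero SZ
  simp only [cy_iff, sh_iff, cb_iff]
  exact Iff.rfl

lemma rl_iff' (n : ℕ) : RankLE H r n ↔ RL H r n := by
  unfold RankLE RL
  simp only [cy_iff, sh_iff, cb_iff]
  exact Iff.rfl

end eqv

lemma good_iff (δ : OK) : Good δ ↔ Gx δ := by
  constructor
  · rintro ⟨J, _, i, π, e, c, h, h9, hk⟩
    exact ⟨J, inferInstance, π, e, i, c, h.prime, h.one, h.inj, h.exp, h.cube, h.prod, h9, hk⟩
  · rintro ⟨J, _, π, e, i, c, h1, h2, h3, h4, h5, h6, h9, hk⟩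
    exact ⟨J, inferInstance, i, π, e, c, ⟨h1, h2, h3, h4, h5, h6⟩, h9, hk⟩

lemma mono_eq {s m : ℕ} (b : Fin s → OK) (a : Fin m → OK) (j : Fin s ⊕ Fin m → ZMod 3) :
    ∏ k, Sum.elim b a k ^ (j k).val =
      power b (fun i => j (Sum.inl i)) * power a (fun k => j (Sum.inr k)) := by
  unfold power
  rw [Fintype.prod_sum_type]
  rfl

lemma power_zero {n : ℕ} (b : Fin n → OK) : power b 0 = 1 := by
  unfold power
  simp

lemma ne_of_good {δ : OK} (h : Good δ) : δ ≠ 0 := by
  rintro rfl
  exact gx_nc ((good_iff _).1 h) 0 (by ring)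

lemma data_ex {s m : ℕ} {b : Fin s → OK} {a : Fin m → OK} (hb0 : ∀ i, b i ≠ 0)
    (ha0 : ∀ k, a k ≠ 0) (hind : Independent b) (hN : NewGood b a) {w : QBar}
    (hw : w ^ 2 + w + 1 = 0) {β : Fin s → QBar} {α : Fin m → QBar}
    (hβ : ∀ i, β i ^ 3 = emb w (b i)) (hα : ∀ k, α k ^ 3 = emb w (a k)) :
    ∃ f : Pool.Agent.Y715.T.Gi.GK w → (Fin s ⊕ Fin m → ZMod 3),
      Fd hw (base w β).fixingSubgroup (top w β α).fixingSubgroup f := by
  refine fd_ex (b := b) (d := a) hb0 ha0 (fun i => by rw [hβ, emb_eq hw])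
    (fun k => by rw [hα, emb_eq hw]) (fun j hj y => ?_) fun j hj χ hχ => ?_
  · rw [mono_eq]
    by_cases h : (fun k => j (Sum.inr k)) = 0
    · rw [h, power_zero, mul_one]
      refine hind _ (fun h' => hj ?_) y
      funext k
      rcases k with k | k
      · exact congrFun h' k
      · exact congrFun h k
    · exact gx_nc ((good_iff _).1 (hN _ _ h)) y
  · obtain ⟨k, hk⟩ := hj
    rw [mono_eq] at hχ
    exact gx_gd ((good_iff _).1 (hN _ _ (fun h => hk (congrFun h k)))) hχ

theorem stable {s m : ℕ} {b : Fin s → OK} {a : Fin m → OK} (hb0 : ∀ i, b i ≠ 0)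
    (ha0 : ∀ k, a k ≠ 0) (hind : Independent b) (hN : NewGood b a) : Stable b a := by
  intro w hw β α hβ hα
  obtain ⟨f, hf⟩ := data_ex hb0 ha0 hind hN hw hβ hα
  refine ⟨?_, ?_, fun F h1 h2 r hr => ⟨fun n => ?_, ?_⟩⟩
  · have := fd_deg0 hf
    rwa [Fintype.card_fin] at this
  · have := fd_deg hf
    rwa [Fintype.card_fin, Fintype.card_fin] at this
  · rw [rl_iff', rl_iff']
    exact rl_iff hf hr (IntermediateField.fixingSubgroup_le h2)
      (IntermediateField.fixingSubgroup_le h1) n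
  · rw [sz_iff', sz_iff']
    exact sz_iff hf hr (IntermediateField.fixingSubgroup_le h2)
      (IntermediateField.fixingSubgroup_le h1)

theorem base_zero {s : ℕ} {b : Fin s → OK} (hb0 : ∀ i, b i ≠ 0) (hB : BaseGood b) {w : QBar}
    (hw : w ^ 2 + w + 1 = 0) {β : Fin s → QBar} (hβ : ∀ i, β i ^ 3 = emb w (b i)) {r : ℤ}
    (hr : r ≠ 0) : SZ (base w β).fixingSubgroup r := by
  have h0 : Independent (Fin.elim0 : Fin 0 → OK) := fun μ hμ => absurd (Subsingleton.elim _ _) hμ
  have h1 : NewGood (Fin.elim0 : Fin 0 → OK) b := by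
    intro μ ν hν
    have e : power (Fin.elim0 : Fin 0 → OK) μ = 1 := by
      unfold power
      simp
    rw [e, one_mul]
    exact hB ν hν
  obtain ⟨f, hf⟩ := data_ex (b := (Fin.elim0 : Fin 0 → OK)) (a := b) (fun i => i.elim0) hb0 h0 h1 hw
    (β := Fin.elim0) (α := β) (fun i => i.elim0) hβ
  have h2 := sz_iff hf hr (N := (top w (Fin.elim0 : Fin 0 → QBar) β).fixingSubgroup) le_rfl hf.le
  have e1 : base w (Fin.elim0 : Fin 0 → QBar) = ⊥ := by
    unfold base
    have : Set.range (Fin.elim0 : Fin 0 → QBar) = ∅ := Set.range_eq_empty _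
    rw [this, IntermediateField.adjoin_empty]
  have e2 : top w (Fin.elim0 : Fin 0 → QBar) β = base w β := by
    unfold base top
    have : Set.range (Fin.elim0 : Fin 0 → QBar) = ∅ := Set.range_eq_empty _
    rw [this, Set.empty_union]
  rw [e1, e2, IntermediateField.fixingSubgroup_bot] at h2
  exact h2.2 (sz_top hw hr)

theorem vanishing {s m : ℕ} {b : Fin s → OK} {a : Fin m → OK} (hb0 : ∀ i, b i ≠ 0)
    (ha0 : ∀ k, a k ≠ 0) (hN : NewGood b a) (hB : BaseGood b) : Vanishing b a := by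
  intro w hw β α hβ hα F hF r hr
  have hind : Independent b := fun μ hμ y => gx_nc ((good_iff _).1 (hB μ hμ)) y
  obtain ⟨f, hf⟩ := data_ex hb0 ha0 hind hN hw hβ hα
  have h1 := base_zero hb0 hB hw hβ hr
  have h2 : SZ (top w β α).fixingSubgroup r := (sz_iff hf hr le_rfl hf.le).2 h1
  rw [sz_iff']
  exact sz_dn (IntermediateField.fixingSubgroup_le hF) (fun g _ h hh => hf.nor le_rfl g h hh)
    (hf.exE hr) h2

end proof

/-- **Main theorem.** -/
theorem result :
    (0.639 : ℝ) < ∏' i : ℕ, (1 - (1 / 3 : ℝ) ^ (2 * i + 1)) ∧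
    kappa (Fin.elim0 : Fin 0 → OK) 1 = 8 / 9 ∧ kappa (Fin.elim0 : Fin 0 → OK) 2 = 16 / 27 ∧
    (∀ (s m : ℕ) (b : Fin s → OK) (a : Fin m → OK), (∀ i, b i ≠ 0) → (∀ k, a k ≠ 0) →
      Independent b → NewGood b a → Stable b a ∧ (BaseGood b → Vanishing b a)) ∧
    ∀ (s : ℕ) (b : Fin s → OK), (∀ i, Admissible (b i)) → Independent b → ∀ m : ℕ,
      ((∃ a : Fin m → OK, (∀ k, Admissible (a k)) ∧ InFamily b a) → 0 < kappa b m) ∧
      (∃ C : ℝ, 0 < C ∧ ∃ X₀ : ℕ, ∀ X : ℕ, X₀ ≤ X →
        C * (X : ℝ) ^ m ≤ number X (fun _ : Fin m → OK => True)) ∧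
      HasDensity (fun a : Fin m → OK => InFamily b a) (kappa b m) ∧
      HasDensity (fun a : Fin m → OK => InFamily b a ∧ NewGood b a)
        (kappa b m * (∏' i : ℕ, (1 - (1 / 3 : ℝ) ^ (2 * i + 1))) ^ (3 ^ s * (3 ^ m - 1) / 2)) := by
  refine ⟨Pool.Agent.XLK.t_C9.2.2.2.1, (Run7.h707.TH.kE_nil _).1, (Run7.h707.TH.kE_nil _).2,
    fun s m b a hb0 ha0 hind hN => ⟨stable hb0 ha0 hind hN, vanishing hb0 ha0 hN⟩,
    fun s b hb hind m => ?_⟩
  have e : ∀ X : ℕ, number X (fun _ : Fin m → OK => True) =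
      ({a : Fin m → OK | ∀ k, nr (a k) ≤ X ∧ Admissible (a k)}.ncard : ℝ) := by
    intro X
    unfold number
    simp only [and_true]
  obtain ⟨h1, h2, h3, h4⟩ := Run7.h707.TH.law_E hb hind m
  refine ⟨h1, ?_, ?_, ?_⟩
  · simp only [e]
    exact h2
  · unfold HasDensity
    simp only [e]
    exact h3
  · unfold HasDensity
    simp only [e]
    have h5 : ∀ a : Fin m → OK, NewGood b a ↔ ∀ (μ : Fin s → ZMod 3) (ν : Fin m → ZMod 3), ν ≠ 0 →
        Run7.h707.TH.Gx (Run7.h707.TH.bE b μ * Run7.h707.TH.bE a ν) := by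
      intro a
      refine forall_congr' fun μ => forall_congr' fun ν => imp_congr_right fun _ => ?_
      exact good_iff _
    simp only [h5]
    exact h4

end Pool.Agent.Results.MP_59f3ad_nt.RadicalFieldsAnyBase
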