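import Mathlib
import Pool.Agent.TH350.SC.Defs
import Pool.Agent.TH350.SC.Fin
import Pool.Agent.Run7.h263.RI.Two

/-!
# Schneider's conjecture over `ℚ`: every class of twists is a sum of two good classes

`GoodClass p m` says that for every `r ≥ 2`, `r ≡ 1 - 2m (mod p - 1)`, the `p`-adic zeta value
`ζ_p(r) = 1/(r-1) · lim_N p^{-N} ∑_{0 < a < p^N, p ∤ a} a^{1-r}` exists and is a `p`-adic unit; then
Schneider's conjecture holds for `(ℚ, p, r)` for all these `r` (background: see
`MP_59f3ad_nt.AlmostAllPrimesOverQ`).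

For every prime `p` and every `N`, `2 ≤ N ≤ (p - 3) / 2`, there are at least `√(2N) / 3` numbers `i`,
`1 ≤ i ≤ N - 1`, such that the classes of `i` and of `N - i` are good; if the class of `N` is not
good, then the least such `i` is at most `N / 4`, and there are more than twice as many as this
least one.  It follows from the theorem that every `N` is a sum of two regular indices
(`Pool/Agent/Results/MP_a3a416_nt/EveryIndexSumOfTwoRegular.lean`).
-/

set_option autoImplicit false

namespace Pool.Agent.Results.MP_59f3ad_nt.TwoGoodClassesOverQ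

open Pool.Agent.TH350.SC

/-- Let `p` be prime, `2 ≤ N ≤ (p - 3) / 2`, and let `R` be the set of all `i`, `1 ≤ i ≤ N - 1`, such that
`ζ_p(r)` is a `p`-adic unit for all `r ≥ 2` with `r ≡ 1 - 2i` or `r ≡ 1 - 2(N-i)` modulo `p - 1`.  Then
`R` is not empty, `2 N ≤ 9 |R|²`, and if the class of `N` is not good then `4 min R ≤ N` and
`2 min R < |R|`. -/
theorem result (p : ℕ) (hp : p.Prime) (N : ℕ) (hN : 2 ≤ N) (hNp : 2 * N + 3 ≤ p) (R : Finset ℕ)
    (hR : ∀ i : ℕ, i ∈ R ↔ 1 ≤ i ∧ i < N ∧ GoodClass p i ∧ GoodClass p (N - i)) :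
    R.Nonempty ∧ 2 * N ≤ 9 * R.card ^ 2 ∧
    (¬ GoodClass p N → ∃ v ∈ R, (∀ i ∈ R, v ≤ i) ∧ 4 * v ≤ N ∧ 2 * v < R.card) :=
  Pool.Agent.Run7.h263.RI.two_of p hp N hN hNp (fun m => GoodClass p m)
    (fun _ hm hmp hB => good hp hm hmp hB) R hR

end Pool.Agent.Results.MP_59f3ad_nt.TwoGoodClassesOverQ
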